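import Pool.Agent.V11250.NilpAssoc

/-!
# MP_00fd70_lc: the varieties of nilpotent associative algebras are logically perfect and regular
-/

set_option autoImplicit false

namespace Pool.Agent.Results.MP_00fd70_lc.PerfectRegular

open FirstOrder Pool.Agent.Helper771.FreeNilp Pool.Agent.V11250.IsoDefs
  Pool.Agent.V11250.NilpAssocDefs

universe u

/-- For every field `K` and every `n ≥ 2` the variety `Θₙ(K)` of the associative `K`-algebras with
the identity `x₁ x₂ ⋯ xₙ = 0` is logically perfect and logically regular. -/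
theorem result (K : Type u) [Field K] (n : ℕ) (hn : 2 ≤ n) :
    LogicallyPerfect K n ∧ LogicallyRegular K n := by
  have hn1 : 1 ≤ n := by omega
  -- homogeneity
  have hom : ∀ (r : ℕ) (A : Type u) [NonUnitalRing A] [Module K A] [IsScalarTower K A A]
      [SMulCommClass K A A] (x : Fin r → A), IsFreeIn K n r A x → Homogeneous K A := by
    intro r A _ _ _ _ x hx m μ ν
    constructor
    · intro h
      rcases Nat.eq_zero_or_pos m with rfl | hm
      · exact ⟨NonUnitalAlgHom.id K A, Function.bijective_id, fun i => i.elim0⟩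
      · exact ((isFreeIn_iff hn1 x).1 hx).homogeneous hn1 m hm μ ν (fun φ => Set.ext_iff.1 h φ)
    · rintro ⟨σ, hσ, h⟩
      exact tp_eq_of_aut μ ν σ hσ h
  refine ⟨hom, ?_⟩
  -- separability
  intro r A _ _ _ _ x hx B _ _ _ _ hB hiso
  have hx' := (isFreeIn_iff hn1 x).1 hx
  obtain ⟨y, hxy, hy⟩ := exists_gen x 0 (by
    intro ν hν a
    obtain ⟨σ, hσ, h⟩ := (hom r A x hx r x ν).1 hν.symm
    obtain ⟨b, rfl⟩ := hσ.2 a
    obtain ⟨t, rfl⟩ := hx'.exists_term b
    refine ⟨t, ?_⟩
    rw [hom_realize]
    congr 1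
    funext i
    exact (h i).symm) hiso
  obtain ⟨f, hf, _⟩ := hx.2 B hB y
  have hft : ∀ t : (algLang K).Term (Fin r), f (t.realize x) = t.realize y := by
    intro t
    rw [hom_realize]
    congr 1
    funext i
    exact hf i
  refine ⟨f, ?_, ?_⟩
  · rw [injective_iff_map_eq_zero]
    intro a ha
    obtain ⟨t, rfl⟩ := hx'.exists_term a
    rw [hft] at ha
    have h0 : ∀ {C : Type u} [NonUnitalRing C] [Module K C] (v : Fin r → C),
        (Language.Term.func (l := 0) (AlgFn.zero : AlgFn K 0) ![] :
          (algLang K).Term (Fin r)).realize v = 0 := fun _ => rfl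
    have h1 := (eq_iff_of_tp hxy t
      (Language.Term.func (l := 0) (AlgFn.zero : AlgFn K 0) ![])).2
    rw [h0, h0] at h1
    exact h1 ha
  · intro u
    obtain ⟨t, rfl⟩ := hy u
    exact ⟨t.realize x, hft t⟩

end Pool.Agent.Results.MP_00fd70_lc.PerfectRegular
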